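import Mathlib

/-! The adjoint Cantorval of the sequence `18, 3, 2, 1/3, ...` is an achievement set (the proof of the
frozen statement S04707). -/

set_option autoImplicit false

namespace Pool.Agent.Lib.MP_555292_an

/-- The fast convergent sequence: `18, 3, 2, 1/3, 2/9, 1/27, ...`. -/
noncomputable def xs (n : ℕ) : ℝ := (if n % 2 = 0 then 18 else 3) * (1 / 9 : ℝ) ^ (n / 2)

/-- The multigeometric sequence with generators `7, 6, 5, 3` and ratio `1/9`. -/
noncomputable def ys (n : ℕ) : ℝ :=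
  (if n % 4 = 0 then 7 else if n % 4 = 1 then 6 else if n % 4 = 2 then 5 else 3) *
    (1 / 9 : ℝ) ^ (n / 4)

lemma xs_zero : xs 0 = 18 := by norm_num [xs]
lemma xs_one : xs 1 = 3 := by norm_num [xs]
lemma xs_add (n : ℕ) : xs (n + 2) = 1 / 9 * xs n := by
  have h1 : (n + 2) % 2 = n % 2 := by omega
  have h2 : (n + 2) / 2 = n / 2 + 1 := by omega
  unfold xs
  rw [h1, h2, pow_succ]; ring

lemma ys_zero : ys 0 = 7 := by norm_num [ys]
lemma ys_one : ys 1 = 6 := by norm_num [ys]
lemma ys_two : ys 2 = 5 := by norm_num [ys]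
lemma ys_three : ys 3 = 3 := by norm_num [ys]
lemma ys_add (n : ℕ) : ys (n + 4) = 1 / 9 * ys n := by
  have h1 : (n + 4) % 4 = n % 4 := by omega
  have h2 : (n + 4) / 4 = n / 4 + 1 := by omega
  unfold ys
  rw [h1, h2, pow_succ]; ring

lemma xs_pos (n : ℕ) : 0 < xs n := by
  unfold xs; split_ifs <;> positivity

lemma ys_pos (n : ℕ) : 0 < ys n := by
  unfold ys; split_ifs <;> positivity

lemma xs_le (n : ℕ) : xs n ≤ 18 * (3 / 5 : ℝ) ^ n := by
  induction n using Nat.strong_induction_on with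
  | _ n ih =>
    match n, ih with
    | 0, _ => norm_num [xs_zero]
    | 1, _ => norm_num [xs_one]
    | (m + 2), ih =>
      have h := ih m (by omega)
      rw [xs_add, pow_add]
      have hp : (0 : ℝ) < (3 / 5 : ℝ) ^ m := by positivity
      nlinarith

lemma ys_le (n : ℕ) : ys n ≤ 40 * (3 / 5 : ℝ) ^ n := by
  induction n using Nat.strong_induction_on with
  | _ n ih =>
    match n, ih with
    | 0, _ => norm_num [ys_zero]
    | 1, _ => norm_num [ys_one]
    | 2, _ => norm_num [ys_two]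
    | 3, _ => norm_num [ys_three]
    | (m + 4), ih =>
      have h := ih m (by omega)
      rw [ys_add, pow_add]
      have hp : (0 : ℝ) < (3 / 5 : ℝ) ^ m := by positivity
      nlinarith

lemma xs_summable : Summable xs :=
  Summable.of_nonneg_of_le (fun n => (xs_pos n).le) xs_le
    ((summable_geometric_of_lt_one (by norm_num) (by norm_num)).mul_left _)

lemma ys_summable : Summable ys :=
  Summable.of_nonneg_of_le (fun n => (ys_pos n).le) ys_le
    ((summable_geometric_of_lt_one (by norm_num) (by norm_num)).mul_left _)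

/-- The set of all subsums of a sequence. -/
def E (z : ℕ → ℝ) : Set ℝ := {s : ℝ | ∃ A : Set ℕ, s = ∑' n, A.indicator z n}

lemma block_tsum {z : ℕ → ℝ} {K : ℕ} {q : ℝ} (hz : Summable z)
    (hq : ∀ n, z (n + K) = q * z n) (A : Set ℕ) :
    ∑' n, A.indicator z n =
      (∑ n ∈ Finset.range K, A.indicator z n) + q * ∑' n, {n | n + K ∈ A}.indicator z n := by
  rw [← (hz.indicator A).sum_add_tsum_nat_add K]
  congr 1
  rw [← tsum_mul_left]
  congr 1
  ext n
  by_cases h : n + K ∈ A
  · rw [Set.indicator_of_mem h, Set.indicator_of_mem (show n ∈ {n | n + K ∈ A} from h), hq]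
  · rw [Set.indicator_of_notMem h, Set.indicator_of_notMem (show n ∉ {n | n + K ∈ A} from h),
      mul_zero]

lemma tsum_indicator_nonneg {z : ℕ → ℝ} (h0 : ∀ n, 0 ≤ z n) (A : Set ℕ) :
    0 ≤ ∑' n, A.indicator z n :=
  tsum_nonneg (fun n => Set.indicator_nonneg (fun n _ => h0 n) n)

lemma tsum_indicator_le {z : ℕ → ℝ} (hz : Summable z) (h0 : ∀ n, 0 ≤ z n) (A : Set ℕ) :
    ∑' n, A.indicator z n ≤ ∑' n, z n :=
  (hz.indicator A).tsum_le_tsum (fun n => Set.indicator_le_self' (fun n _ => h0 n) n) hz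

/-- If every point of a bounded set `C` has a first digit leading back into `C`,
then `C` consists of subsums. -/
lemma subset_E {z : ℕ → ℝ} {K : ℕ} (hK : 0 < K) (hz : Summable z) (h0 : ∀ n, 0 ≤ z n)
    (hq : ∀ n, z (n + K) = 1 / 9 * z n) (C : Set ℝ) (B : ℝ) (hB : ∀ c ∈ C, |c| ≤ B)
    (hC : ∀ c ∈ C, ∃ P : Finset ℕ, P ⊆ Finset.range K ∧ ∃ c' ∈ C,
      c = (∑ i ∈ P, z i) + 1 / 9 * c') : C ⊆ E z := by
  classical
  intro c hc
  -- choose the digits and the remainders
  let step : C → C := fun c => ⟨(hC c.1 c.2).choose_spec.2.choose,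
    (hC c.1 c.2).choose_spec.2.choose_spec.1⟩
  let dig : C → Finset ℕ := fun c => (hC c.1 c.2).choose
  have hdig : ∀ c : C, dig c ⊆ Finset.range K := fun c => (hC c.1 c.2).choose_spec.1
  have hstep : ∀ c : C, (c : ℝ) = (∑ i ∈ dig c, z i) + 1 / 9 * (step c : ℝ) :=
    fun c => (hC c.1 c.2).choose_spec.2.choose_spec.2
  let cs : ℕ → C := fun n => step^[n] ⟨c, hc⟩
  have hcs : ∀ n, cs (n + 1) = step (cs n) := fun n => Function.iterate_succ_apply' _ _ _
  let A : ℕ → Set ℕ := fun j => {n | n % K ∈ dig (cs (j + n / K))}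
  let s : ℕ → ℝ := fun j => ∑' n, (A j).indicator z n
  have hs : ∀ j, s j = (∑ i ∈ dig (cs j), z i) + 1 / 9 * s (j + 1) := by
    intro j
    have h1 := block_tsum hz hq (A j)
    have h2 : {n | n + K ∈ A j} = A (j + 1) := by
      ext n
      simp only [A, Set.mem_ofPred_eq]
      have e1 : (n + K) % K = n % K := Nat.add_mod_right n K
      have e2 : (n + K) / K = n / K + 1 := Nat.add_div_right n hK
      rw [e1, e2]
      have e3 : j + (n / K + 1) = j + 1 + n / K := by ring
      rw [e3]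
    have h3 : ∑ n ∈ Finset.range K, (A j).indicator z n = ∑ i ∈ dig (cs j), z i := by
      rw [← Finset.sum_subset (hdig (cs j))]
      · apply Finset.sum_congr rfl
        intro i hi
        have hiK := Finset.mem_range.mp (hdig _ hi)
        rw [Set.indicator_of_mem]
        simp only [A, Set.mem_ofPred_eq]
        rw [Nat.mod_eq_of_lt hiK, Nat.div_eq_of_lt hiK]
        simpa using hi
      · intro i hiK hi
        have hiK := Finset.mem_range.mp hiK
        rw [Set.indicator_of_notMem]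
        simp only [A, Set.mem_ofPred_eq]
        rw [Nat.mod_eq_of_lt hiK, Nat.div_eq_of_lt hiK]
        simpa using hi
    rw [h2, h3] at h1
    exact h1
  have hrec : ∀ j, s j - cs j = 1 / 9 * (s (j + 1) - cs (j + 1)) := by
    intro j
    have h1 := hs j
    have h2 := hstep (cs j)
    rw [hcs j]
    linarith
  have hall : ∀ n, s 0 - cs 0 = (1 / 9 : ℝ) ^ n * (s n - cs n) := by
    intro n
    induction n with
    | zero => simp
    | succ n ih => rw [ih, hrec n, pow_succ]; ring
  have hbd : ∀ n, |s n - cs n| ≤ (∑' n, z n) + B := by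
    intro n
    have h1 : 0 ≤ s n := tsum_indicator_nonneg h0 _
    have h2 : s n ≤ ∑' n, z n := tsum_indicator_le hz h0 _
    have h3 := hB _ (cs n).2
    have h4 := abs_le.mp h3
    rw [abs_le]
    constructor <;> linarith [h4.1, h4.2]
  have hzero : s 0 - cs 0 = 0 := by
    have hlim : Filter.Tendsto (fun n : ℕ => (1 / 9 : ℝ) ^ n * ((∑' n, z n) + B)) Filter.atTop
        (nhds (0 * ((∑' n, z n) + B))) :=
      (tendsto_pow_atTop_nhds_zero_of_lt_one (by norm_num) (by norm_num)).mul_const _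
    rw [zero_mul] at hlim
    have hle : |s 0 - cs 0| ≤ 0 := by
      apply ge_of_tendsto' hlim
      intro n
      rw [hall n, abs_mul, abs_of_nonneg (by positivity : (0 : ℝ) ≤ (1 / 9) ^ n)]
      exact mul_le_mul_of_nonneg_left (hbd n) (by positivity)
    exact abs_eq_zero.mp (le_antisymm hle (abs_nonneg _))
  refine ⟨A 0, ?_⟩
  have : ((cs 0 : C) : ℝ) = c := rfl
  have h := sub_eq_zero.mp hzero
  rw [← this]
  exact h.symm

/-- One-step decomposition of a subsum. -/
lemma E_decomp {z : ℕ → ℝ} {K : ℕ} (hz : Summable z)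
    (hq : ∀ n, z (n + K) = 1 / 9 * z n) {s : ℝ} (hs : s ∈ E z) :
    ∃ P : Finset ℕ, P ⊆ Finset.range K ∧ ∃ s' ∈ E z, s = (∑ i ∈ P, z i) + 1 / 9 * s' := by
  classical
  obtain ⟨A, rfl⟩ := hs
  refine ⟨(Finset.range K).filter (· ∈ A), Finset.filter_subset _ _, _,
    ⟨{n | n + K ∈ A}, rfl⟩, ?_⟩
  rw [block_tsum hz hq A, Finset.sum_filter]
  congr 1

/-- Prepending a digit. -/
lemma E_cons {z : ℕ → ℝ} {K : ℕ} (hz : Summable z)
    (hq : ∀ n, z (n + K) = 1 / 9 * z n) {s : ℝ} (hs : s ∈ E z) (P : Finset ℕ)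
    (hP : P ⊆ Finset.range K) : (∑ i ∈ P, z i) + 1 / 9 * s ∈ E z := by
  classical
  obtain ⟨A, rfl⟩ := hs
  refine ⟨{n | n ∈ P ∨ ∃ m ∈ A, n = m + K}, ?_⟩
  rw [block_tsum hz hq {n | n ∈ P ∨ ∃ m ∈ A, n = m + K}]
  have h1 : {n | n + K ∈ {n | n ∈ P ∨ ∃ m ∈ A, n = m + K}} = A := by
    ext n
    simp only [Set.mem_ofPred_eq]
    constructor
    · rintro (h | ⟨m, hm, h⟩)
      · have := Finset.mem_range.mp (hP h); omega
      · have : n = m := by omega
        rw [this]; exact hm
    · intro h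
      exact Or.inr ⟨n, h, rfl⟩
  rw [h1]
  congr 1
  rw [← Finset.sum_subset hP]
  · apply Finset.sum_congr rfl
    intro i hi
    rw [Set.indicator_of_mem]
    exact Or.inl hi
  · intro i hiK hi
    have hiK := Finset.mem_range.mp hiK
    rw [Set.indicator_of_notMem]
    rintro (h | ⟨m, hm, h⟩)
    · exact hi h
    · omega

/-- Tail sums. -/
noncomputable def T (n : ℕ) : ℝ := ∑' k, xs (n + 1 + k)

lemma tsum_xs : ∑' n, xs n = 189 / 8 := by
  have h := xs_summable.sum_add_tsum_nat_add 2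
  have h2 : ∑' n, xs (n + 2) = 1 / 9 * ∑' n, xs n := by
    rw [← tsum_mul_left]
    congr 1
    ext n
    exact xs_add n
  rw [h2] at h
  rw [Finset.sum_range_succ, Finset.sum_range_one, xs_zero, xs_one] at h
  linarith

lemma T_zero : T 0 = 45 / 8 := by
  have h := xs_summable.sum_add_tsum_nat_add 1
  rw [Finset.sum_range_one, xs_zero, tsum_xs] at h
  have : T 0 = ∑' n, xs (n + 1) := by
    unfold T
    congr 1; ext n; congr 1; ring
  linarith

lemma T_one : T 1 = 21 / 8 := by
  have h := xs_summable.sum_add_tsum_nat_add 2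
  rw [Finset.sum_range_succ, Finset.sum_range_one, xs_zero, xs_one, tsum_xs] at h
  have : T 1 = ∑' n, xs (n + 2) := by
    unfold T
    congr 1; ext n; congr 1; ring
  linarith

lemma T_add (n : ℕ) : T (n + 2) = 1 / 9 * T n := by
  unfold T
  rw [← tsum_mul_left]
  congr 1
  ext k
  rw [← xs_add]
  congr 1
  ring

lemma T_lt (n : ℕ) : T n < xs n := by
  induction n using Nat.strong_induction_on with
  | _ n ih =>
    match n, ih with
    | 0, _ => rw [T_zero, xs_zero]; norm_num
    | 1, _ => rw [T_one, xs_one]; norm_num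
    | (m + 2), ih =>
      have h := ih m (by omega)
      rw [xs_add, T_add]
      linarith

/-- The union of the gaps filled in. -/
def G : Set ℝ := {t : ℝ | ∃ n : ℕ, Even n ∧ ∃ F : Finset ℕ, F ⊆ Finset.range n ∧
              (∑ i ∈ F, xs i) + (∑' k, xs (n + 1 + k)) < t ∧
              t < (∑ i ∈ F, xs i) + xs n}

lemma G_zero {t : ℝ} (h1 : 45 / 8 < t) (h2 : t < 18) : t ∈ G := by
  refine ⟨0, Even.zero, ∅, Finset.Subset.refl _, ?_, ?_⟩
  · have := T_zero
    unfold T at this
    rw [this]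
    simpa using h1
  · rw [xs_zero]; simpa using h2

lemma G_cons {t : ℝ} (ht : t ∈ G) (P : Finset ℕ) (hP : P ⊆ Finset.range 2) :
    (∑ i ∈ P, xs i) + 1 / 9 * t ∈ G := by
  classical
  obtain ⟨n, hn, F, hF, h1, h2⟩ := ht
  have hdisj : Disjoint P (F.map (addRightEmbedding 2)) := by
    rw [Finset.disjoint_left]
    intro i hi hi'
    rw [Finset.mem_map] at hi'
    obtain ⟨j, _, hj⟩ := hi'
    have := Finset.mem_range.mp (hP hi)
    simp only [addRightEmbedding_apply] at hj
    omega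
  have hsum : ∑ i ∈ P ∪ F.map (addRightEmbedding 2), xs i =
      (∑ i ∈ P, xs i) + 1 / 9 * ∑ i ∈ F, xs i := by
    rw [Finset.sum_union hdisj, Finset.sum_map, Finset.mul_sum]
    congr 1
    apply Finset.sum_congr rfl
    intro i _
    exact xs_add i
  refine ⟨n + 2, hn.add (by decide), P ∪ F.map (addRightEmbedding 2), ?_, ?_, ?_⟩
  · intro i hi
    rw [Finset.mem_union, Finset.mem_map] at hi
    rw [Finset.mem_range]
    rcases hi with hi | ⟨j, hj, hj'⟩
    · have := Finset.mem_range.mp (hP hi)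
      omega
    · have := Finset.mem_range.mp (hF hj)
      simp only [addRightEmbedding_apply] at hj'
      omega
  · have hT := T_add n
    have hT' : T n = ∑' k, xs (n + 1 + k) := rfl
    have hT'' : T (n + 2) = ∑' k, xs (n + 2 + 1 + k) := rfl
    rw [← hT''] 
    rw [← hT'] at h1
    rw [hsum, hT]
    linarith
  · rw [hsum, xs_add]
    linarith

lemma G_decomp {t : ℝ} (ht : t ∈ G) :
    (45 / 8 < t ∧ t < 18) ∨ ∃ P : Finset ℕ, P ⊆ Finset.range 2 ∧ ∃ t' ∈ G,
      t = (∑ i ∈ P, xs i) + 1 / 9 * t' := by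
  classical
  obtain ⟨n, hn, F, hF, h1, h2⟩ := ht
  match n, hn, hF, h1, h2 with
  | 0, _, hF, h1, h2 =>
    left
    have hF0 : F = ∅ := by simpa using hF
    subst hF0
    have := T_zero
    unfold T at this
    rw [this] at h1
    rw [xs_zero] at h2
    simp only [Finset.sum_empty, zero_add] at h1 h2
    exact ⟨h1, h2⟩
  | 1, hn, _, _, _ => exact absurd hn (by decide)
  | (m + 2), hn, hF, h1, h2 =>
    right
    set P : Finset ℕ := F.filter (· < 2) with hPdef
    set F' : Finset ℕ := (Finset.range m).filter (fun i => i + 2 ∈ F) with hF'def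
    have hFeq : F = P ∪ F'.map (addRightEmbedding 2) := by
      ext i
      rw [Finset.mem_union, Finset.mem_map, hPdef, Finset.mem_filter]
      constructor
      · intro hi
        by_cases h : i < 2
        · exact Or.inl ⟨hi, h⟩
        · right
          refine ⟨i - 2, ?_, ?_⟩
          · rw [hF'def, Finset.mem_filter, Finset.mem_range]
            have := Finset.mem_range.mp (hF hi)
            refine ⟨by omega, ?_⟩
            have e : i - 2 + 2 = i := by omega
            rw [e]; exact hi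
          · simp only [addRightEmbedding_apply]; omega
      · rintro (⟨hi, _⟩ | ⟨j, hj, hj'⟩)
        · exact hi
        · rw [hF'def, Finset.mem_filter] at hj
          simp only [addRightEmbedding_apply] at hj'
          rw [← hj']; exact hj.2
    have hdisj : Disjoint P (F'.map (addRightEmbedding 2)) := by
      rw [Finset.disjoint_left]
      intro i hi hi'
      rw [Finset.mem_map] at hi'
      obtain ⟨j, _, hj⟩ := hi'
      have := (Finset.mem_filter.mp hi).2
      simp only [addRightEmbedding_apply] at hj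
      omega
    have hsum : ∑ i ∈ F, xs i =
        (∑ i ∈ P, xs i) + 1 / 9 * ∑ i ∈ F', xs i := by
      rw [hFeq, Finset.sum_union hdisj, Finset.sum_map, Finset.mul_sum]
      congr 1
      apply Finset.sum_congr rfl
      intro i _
      exact xs_add i
    have hn' : Even m := by
      rcases hn with ⟨k, hk⟩
      exact ⟨k - 1, by omega⟩
    refine ⟨P, ?_, 9 * (t - ∑ i ∈ P, xs i), ⟨m, hn', F', Finset.filter_subset _ _, ?_, ?_⟩, by ring⟩
    · intro i hi
      exact Finset.mem_range.mpr (Finset.mem_filter.mp hi).2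
    · have hT := T_add m
      have hT' : T m = ∑' k, xs (m + 1 + k) := rfl
      have hT'' : T (m + 2) = ∑' k, xs (m + 2 + 1 + k) := rfl
      rw [← hT'']  at h1
      rw [← hT']
      rw [hsum, hT] at h1
      linarith
    · rw [hsum, xs_add] at h2
      linarith

/-- The adjoint Cantorval. -/
def X : Set ℝ := E xs ∪ G

lemma E_xs_bound {s : ℝ} (hs : s ∈ E xs) : 0 ≤ s ∧ s ≤ 189 / 8 := by
  obtain ⟨A, rfl⟩ := hs
  refine ⟨tsum_indicator_nonneg (fun n => (xs_pos n).le) A, ?_⟩
  have := tsum_indicator_le xs_summable (fun n => (xs_pos n).le) A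
  rwa [tsum_xs] at this

lemma fin_sum_le {n : ℕ} (F : Finset ℕ) (hF : F ⊆ Finset.range n) :
    (∑ i ∈ F, xs i) + xs n ≤ 189 / 8 := by
  classical
  rw [← tsum_xs]
  have hn : n ∉ F := by
    intro h
    have := Finset.mem_range.mp (hF h)
    omega
  have := xs_summable.sum_le_tsum (insert n F) (fun i _ => (xs_pos i).le)
  rw [Finset.sum_insert hn] at this
  linarith

lemma T_nonneg (n : ℕ) : 0 ≤ T n := tsum_nonneg (fun _ => (xs_pos _).le)

lemma G_bound {t : ℝ} (ht : t ∈ G) : 0 ≤ t ∧ t ≤ 189 / 8 := by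
  obtain ⟨n, hn, F, hF, h1, h2⟩ := ht
  have h3 := fin_sum_le F hF
  have h4 : 0 ≤ ∑ i ∈ F, xs i := Finset.sum_nonneg (fun i _ => (xs_pos i).le)
  have h5 := T_nonneg n
  unfold T at h5
  constructor <;> linarith

lemma X_bound {t : ℝ} (ht : t ∈ X) : 0 ≤ t ∧ t ≤ 189 / 8 := by
  rcases ht with h | h
  · exact E_xs_bound h
  · exact G_bound h

lemma zero_mem_E (z : ℕ → ℝ) : (0 : ℝ) ∈ E z := ⟨∅, by simp⟩

lemma total_mem_E : (189 / 8 : ℝ) ∈ E xs := ⟨Set.univ, by simp [tsum_xs]⟩

/-- digits -/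
lemma P_cases {P : Finset ℕ} (hP : P ⊆ Finset.range 2) :
    (∑ i ∈ P, xs i) = 0 ∨ (∑ i ∈ P, xs i) = 3 ∨ (∑ i ∈ P, xs i) = 18 ∨ (∑ i ∈ P, xs i) = 21 := by
  have : P ∈ (Finset.range 2).powerset := Finset.mem_powerset.mpr hP
  have h2 : (Finset.range 2).powerset = {∅, {0}, {1}, {0, 1}} := by decide
  rw [h2] at this
  simp only [Finset.mem_insert, Finset.mem_singleton] at this
  rcases this with rfl | rfl | rfl | rfl
  · left; simp
  · right; right; left; simp [xs_zero]
  · right; left; simp [xs_one]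
  · right; right; right
    rw [Finset.sum_pair (by decide), xs_zero, xs_one]; norm_num

lemma X_cons_P {t : ℝ} (ht : t ∈ X) (P : Finset ℕ) (hP : P ⊆ Finset.range 2) :
    (∑ i ∈ P, xs i) + 1 / 9 * t ∈ X := by
  rcases ht with h | h
  · exact Or.inl (E_cons xs_summable xs_add h P hP)
  · exact Or.inr (G_cons h P hP)

lemma X_cons0 {t : ℝ} (ht : t ∈ X) : 1 / 9 * t ∈ X := by
  have := X_cons_P ht ∅ (by decide)
  simpa using this

lemma X_cons3 {t : ℝ} (ht : t ∈ X) : 3 + 1 / 9 * t ∈ X := by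
  have := X_cons_P ht {1} (by decide)
  simpa [xs_one] using this

lemma X_cons18 {t : ℝ} (ht : t ∈ X) : 18 + 1 / 9 * t ∈ X := by
  have := X_cons_P ht {0} (by decide)
  simpa [xs_zero] using this

lemma X_cons21 {t : ℝ} (ht : t ∈ X) : 21 + 1 / 9 * t ∈ X := by
  have := X_cons_P ht {0, 1} (by decide)
  rw [Finset.sum_pair (by decide), xs_zero, xs_one] at this
  have e : (18 : ℝ) + 3 = 21 := by norm_num
  rwa [e] at this

lemma Icc_sub {t : ℝ} (h1 : 45 / 8 ≤ t) (h2 : t ≤ 18) : t ∈ X := by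
  rcases eq_or_lt_of_le h1 with h | h
  · -- 45/8 = 3 + 1/9 * 189/8
    left
    have := E_cons xs_summable xs_add total_mem_E {1} (by decide)
    rw [Finset.sum_singleton, xs_one] at this
    rw [← h]
    have e : (3 : ℝ) + 1 / 9 * (189 / 8) = 45 / 8 := by norm_num
    rwa [e] at this
  · rcases eq_or_lt_of_le h2 with h' | h'
    · left
      have := E_cons xs_summable xs_add (zero_mem_E xs) {0} (by decide)
      rw [Finset.sum_singleton, xs_zero, mul_zero, add_zero] at this
      rw [h']; exact this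
    · right; exact G_zero h h'

lemma X_decomp_P {t : ℝ} (ht : t ∈ X) :
    (45 / 8 ≤ t ∧ t ≤ 18) ∨ ∃ P : Finset ℕ, P ⊆ Finset.range 2 ∧ ∃ t' ∈ X,
      t = (∑ i ∈ P, xs i) + 1 / 9 * t' := by
  rcases ht with h | h
  · right
    obtain ⟨P, hP, s', hs', e⟩ := E_decomp xs_summable xs_add h
    exact ⟨P, hP, s', Or.inl hs', e⟩
  · rcases G_decomp h with h | ⟨P, hP, t', ht', e⟩
    · left; exact ⟨h.1.le, h.2.le⟩
    · right; exact ⟨P, hP, t', Or.inr ht', e⟩

lemma X_decomp {t : ℝ} (ht : t ∈ X) :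
    (45 / 8 ≤ t ∧ t ≤ 18) ∨ ∃ d : ℝ, (d = 0 ∨ d = 3 ∨ d = 18 ∨ d = 21) ∧ ∃ t' ∈ X,
      t = d + 1 / 9 * t' := by
  rcases X_decomp_P ht with h | ⟨P, hP, t', ht', e⟩
  · exact Or.inl h
  · exact Or.inr ⟨_, P_cases hP, t', ht', e⟩

/-- `X` is closed. -/
lemma X_closed : IsClosed X := by
  have hsub : closure X ⊆ Set.Icc 0 (189 / 8) :=
    closure_minimal (fun t ht => X_bound ht) isClosed_Icc
  -- the closure satisfies the same decomposition
  have hdec : ∀ t ∈ closure X, (45 / 8 ≤ t ∧ t ≤ 18) ∨ ∃ P : Finset ℕ, P ⊆ Finset.range 2 ∧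
      ∃ t' ∈ closure X, t = (∑ i ∈ P, xs i) + 1 / 9 * t' := by
    have hZ : IsClosed (Set.Icc (45 / 8 : ℝ) 18 ∪
        ⋃ P ∈ (Finset.range 2).powerset, (fun t => (∑ i ∈ P, xs i) + 1 / 9 * t) '' closure X) := by
      apply isClosed_Icc.union
      apply Set.Finite.isClosed_biUnion (Finset.finite_toSet _)
      intro P _
      have hcomp : IsCompact (closure X) := isCompact_Icc.of_isClosed_subset isClosed_closure hsub
      exact (hcomp.image (by fun_prop)).isClosed
    have hXZ : X ⊆ (Set.Icc (45 / 8 : ℝ) 18 ∪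
        ⋃ P ∈ (Finset.range 2).powerset, (fun t => (∑ i ∈ P, xs i) + 1 / 9 * t) '' closure X) := by
      intro t ht
      rcases X_decomp_P ht with h | ⟨P, hP, t', ht', e⟩
      · exact Or.inl h
      · right
        rw [Set.mem_iUnion₂]
        exact ⟨P, Finset.mem_powerset.mpr hP, t', subset_closure ht', e.symm⟩
    intro t ht
    rcases closure_minimal hXZ hZ ht with h | h
    · exact Or.inl h
    · right
      rw [Set.mem_iUnion₂] at h
      obtain ⟨P, hP, t', ht', e⟩ := h
      exact ⟨P, Finset.mem_powerset.mp hP, t', ht', e.symm⟩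
  have hC : closure X \ X ⊆ E xs := by
    apply subset_E (K := 2) (by norm_num) xs_summable (fun n => (xs_pos n).le) xs_add _ (189 / 8)
    · rintro c ⟨hc, _⟩
      have := hsub hc
      rw [abs_of_nonneg this.1]
      exact this.2
    · rintro c ⟨hc, hcX⟩
      rcases hdec c hc with h | ⟨P, hP, c', hc', e⟩
      · exact absurd (Icc_sub h.1 h.2) hcX
      · refine ⟨P, hP, c', ⟨hc', ?_⟩, e⟩
        intro h
        apply hcX
        rw [e]
        exact X_cons_P h P hP
  rw [← closure_subset_iff_isClosed]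
  intro t ht
  by_contra hX
  exact hX (Or.inl (hC ⟨ht, hX⟩))

/-- subset sums of the generators `7, 6, 5, 3` -/
lemma Y_cases {P : Finset ℕ} (hP : P ⊆ Finset.range 4) :
    (∑ i ∈ P, ys i) = 0 ∨ (∑ i ∈ P, ys i) = 3 ∨ (∑ i ∈ P, ys i) = 5 ∨
      (6 ≤ (∑ i ∈ P, ys i) ∧ (∑ i ∈ P, ys i) ≤ 15) ∨ (∑ i ∈ P, ys i) = 16 ∨
      (∑ i ∈ P, ys i) = 18 ∨ (∑ i ∈ P, ys i) = 21 := by
  classical
  have hform : ∑ i ∈ P, ys i = (if 0 ∈ P then 7 else 0) + (if 1 ∈ P then 6 else 0) +
      (if 2 ∈ P then 5 else 0) + (if 3 ∈ P then 3 else 0) := by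
    have h1 : ∑ i ∈ P, ys i = ∑ i ∈ Finset.range 4, if i ∈ P then ys i else 0 := by
      rw [← Finset.sum_filter]
      congr 1
      ext i
      rw [Finset.mem_filter]
      exact ⟨fun h => ⟨hP h, h⟩, fun h => h.2⟩
    rw [h1, Finset.sum_range_succ, Finset.sum_range_succ, Finset.sum_range_succ,
      Finset.sum_range_one, ys_zero, ys_one, ys_two, ys_three]
  rw [hform]
  by_cases h0 : 0 ∈ P <;> by_cases h1 : 1 ∈ P <;> by_cases h2 : 2 ∈ P <;> by_cases h3 : 3 ∈ P <;>
    simp only [h0, h1, h2, h3, if_true, if_false] <;> norm_num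

/-- `F + X/9 ⊆ X`. -/
lemma cons_Y {t : ℝ} (ht : t ∈ X) {P : Finset ℕ} (hP : P ⊆ Finset.range 4) :
    (∑ i ∈ P, ys i) + 1 / 9 * t ∈ X := by
  have hb := X_bound ht
  rcases Y_cases hP with h | h | h | h | h | h | h
  · rw [h, zero_add]; exact X_cons0 ht
  · rw [h]; exact X_cons3 ht
  · -- 5 + t/9
    rw [h]
    rcases X_decomp ht with h' | ⟨d, hd, t', ht', e⟩
    · apply Icc_sub <;> linarith [h'.1, h'.2]
    · have hb' := X_bound ht'
      rcases hd with rfl | rfl | rfl | rfl
      · have := X_cons3 (X_cons18 ht')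
        have e2 : (5 : ℝ) + 1 / 9 * t = 3 + 1 / 9 * (18 + 1 / 9 * t') := by rw [e]; ring
        rw [e2]; exact this
      · have := X_cons3 (X_cons21 ht')
        have e2 : (5 : ℝ) + 1 / 9 * t = 3 + 1 / 9 * (21 + 1 / 9 * t') := by rw [e]; ring
        rw [e2]; exact this
      · apply Icc_sub <;> linarith [hb'.1, hb'.2]
      · apply Icc_sub <;> linarith [hb'.1, hb'.2]
  · apply Icc_sub <;> linarith [hb.1, hb.2, h.1, h.2]
  · rw [h]
    rcases X_decomp ht with h' | ⟨d, hd, t', ht', e⟩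
    · apply Icc_sub <;> linarith [h'.1, h'.2]
    · have hb' := X_bound ht'
      rcases hd with rfl | rfl | rfl | rfl
      · apply Icc_sub <;> linarith [hb'.1, hb'.2]
      · apply Icc_sub <;> linarith [hb'.1, hb'.2]
      · have := X_cons18 (X_cons0 ht')
        have e2 : (16 : ℝ) + 1 / 9 * t = 18 + 1 / 9 * (1 / 9 * t') := by rw [e]; ring
        rw [e2]; exact this
      · have := X_cons18 (X_cons3 ht')
        have e2 : (16 : ℝ) + 1 / 9 * t = 18 + 1 / 9 * (3 + 1 / 9 * t') := by rw [e]; ring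
        rw [e2]; exact this
  · rw [h]; exact X_cons18 ht
  · rw [h]; exact X_cons21 ht

/-- every integer digit needed is a subset sum -/
lemma digit (f : ℕ) (hf : 5 ≤ f) (hf' : f ≤ 16) :
    ∃ P : Finset ℕ, P ⊆ Finset.range 4 ∧ ∑ i ∈ P, ys i = f := by
  interval_cases f
  · exact ⟨{2}, by decide, by simp [ys_two]⟩
  · exact ⟨{1}, by decide, by simp [ys_one]⟩
  · exact ⟨{0}, by decide, by simp [ys_zero]⟩
  · exact ⟨{2, 3}, by decide, by rw [Finset.sum_pair (by decide), ys_two, ys_three]; norm_num⟩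
  · exact ⟨{1, 3}, by decide, by rw [Finset.sum_pair (by decide), ys_one, ys_three]; norm_num⟩
  · exact ⟨{0, 3}, by decide, by rw [Finset.sum_pair (by decide), ys_zero, ys_three]; norm_num⟩
  · exact ⟨{1, 2}, by decide, by rw [Finset.sum_pair (by decide), ys_one, ys_two]; norm_num⟩
  · exact ⟨{0, 2}, by decide, by rw [Finset.sum_pair (by decide), ys_zero, ys_two]; norm_num⟩
  · exact ⟨{0, 1}, by decide, by rw [Finset.sum_pair (by decide), ys_zero, ys_one]; norm_num⟩
  · refine ⟨{1, 2, 3}, by decide, ?_⟩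
    rw [Finset.sum_insert (by decide), Finset.sum_pair (by decide), ys_one, ys_two, ys_three]
    norm_num
  · refine ⟨{0, 2, 3}, by decide, ?_⟩
    rw [Finset.sum_insert (by decide), Finset.sum_pair (by decide), ys_zero, ys_two, ys_three]
    norm_num
  · refine ⟨{0, 1, 3}, by decide, ?_⟩
    rw [Finset.sum_insert (by decide), Finset.sum_pair (by decide), ys_zero, ys_one, ys_three]
    norm_num

lemma X_sub_E : X ⊆ E ys := by
  apply subset_E (K := 4) (by norm_num) ys_summable (fun n => (ys_pos n).le) ys_add _ (189 / 8)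
  · intro c hc
    have := X_bound hc
    rw [abs_of_nonneg this.1]
    exact this.2
  · intro c hc
    rcases X_decomp hc with h | ⟨d, hd, c', hc', e⟩
    · -- choose an integer digit `f` with `f + 5/8 ≤ c ≤ f + 2`
      have : ∃ f : ℕ, 5 ≤ f ∧ f ≤ 16 ∧ (f : ℝ) + 5 / 8 ≤ c ∧ c ≤ f + 2 := by
        by_cases hc17 : 17 ≤ c
        · exact ⟨16, by norm_num, le_refl _, by push_cast; linarith, by push_cast; linarith [h.2]⟩
        · push Not at hc17
          refine ⟨⌊c - 5 / 8⌋₊, ?_, ?_, ?_, ?_⟩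
          · apply Nat.le_floor; push_cast; linarith [h.1]
          · have h1 : ⌊c - 5 / 8⌋₊ < 17 := by
              rw [Nat.floor_lt (by linarith [h.1])]; push_cast; linarith
            omega
          · have := Nat.floor_le (show (0 : ℝ) ≤ c - 5 / 8 by linarith [h.1])
            linarith
          · have := Nat.lt_floor_add_one (c - 5 / 8)
            linarith
      obtain ⟨f, hf1, hf2, hf3, hf4⟩ := this
      obtain ⟨P, hP, hPs⟩ := digit f hf1 hf2
      refine ⟨P, hP, 9 * (c - f), Icc_sub (by linarith) (by linarith), ?_⟩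
      rw [hPs]; ring
    · rcases hd with rfl | rfl | rfl | rfl
      · exact ⟨∅, by decide, c', hc', by rw [e]; simp⟩
      · exact ⟨{3}, by decide, c', hc', by rw [e]; simp [ys_three]⟩
      · refine ⟨{0, 1, 2}, by decide, c', hc', ?_⟩
        rw [e, Finset.sum_insert (by decide), Finset.sum_pair (by decide), ys_zero, ys_one, ys_two]
        norm_num
      · refine ⟨{0, 1, 2, 3}, by decide, c', hc', ?_⟩
        rw [e, Finset.sum_insert (by decide), Finset.sum_insert (by decide),
          Finset.sum_pair (by decide), ys_zero, ys_one, ys_two, ys_three]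
        norm_num

lemma tsum_ys_nonneg : 0 ≤ ∑' n, ys n := tsum_nonneg (fun n => (ys_pos n).le)

lemma approx (n : ℕ) : ∀ s ∈ E ys, ∃ u ∈ X, |s - u| ≤ (∑' n, ys n) * (1 / 9 : ℝ) ^ n := by
  induction n with
  | zero =>
    intro s hs
    refine ⟨0, Or.inl (zero_mem_E xs), ?_⟩
    obtain ⟨A, rfl⟩ := hs
    have h1 := tsum_indicator_nonneg (fun n => (ys_pos n).le) A
    have h2 := tsum_indicator_le ys_summable (fun n => (ys_pos n).le) A
    rw [sub_zero, abs_of_nonneg h1, pow_zero, mul_one]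
    exact h2
  | succ n ih =>
    intro s hs
    obtain ⟨P, hP, s', hs', e⟩ := E_decomp ys_summable ys_add hs
    obtain ⟨u', hu', h⟩ := ih s' hs'
    refine ⟨_, cons_Y hu' hP, ?_⟩
    have e2 : s - ((∑ i ∈ P, ys i) + 1 / 9 * u') = 1 / 9 * (s' - u') := by rw [e]; ring
    rw [e2, abs_mul, abs_of_pos (by norm_num : (0 : ℝ) < 1 / 9), pow_succ]
    linarith

lemma E_sub_X : E ys ⊆ X := by
  intro s hs
  rw [← X_closed.closure_eq, Metric.mem_closure_iff]
  intro ε hε
  have hlim : Filter.Tendsto (fun n : ℕ => (∑' n, ys n) * (1 / 9 : ℝ) ^ n) Filter.atTop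
      (nhds ((∑' n, ys n) * 0)) :=
    (tendsto_pow_atTop_nhds_zero_of_lt_one (by norm_num) (by norm_num)).const_mul _
  rw [mul_zero] at hlim
  obtain ⟨n, hn⟩ := ((hlim.eventually (gt_mem_nhds hε)).exists)
  obtain ⟨u, hu, h⟩ := approx n s hs
  exact ⟨u, hu, by rw [Real.dist_eq]; exact lt_of_le_of_lt h hn⟩


end Pool.Agent.Lib.MP_555292_an
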